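import Pool.Agent.Helper78.OE.GoalsC3

/-!
Project OE (MP_fc0446_an), packet OE-CHEB.
-/

open MeasureTheory
open scoped ENNReal

namespace Pool.Agent.Helper18.OE

open Pool.Agent.Helper78.OE

theorem cheb_real {N c : ℕ} {Λ β : ℝ} (hΛ : 0 < Λ) (hβ : 0 < β) (hc : (1 + β) * Λ ≤ c)
    (h : c < N) : β ^ 2 * Λ / (1 + β) * N ≤ ((N : ℝ) - Λ) ^ 2 := by
  have h1 : (1 + β) * Λ ≤ N := hc.trans (by exact_mod_cast h.le)
  have h2 : 0 < 1 + β := by linarith
  rw [div_mul_eq_mul_div, div_le_iff₀ h2]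
  have h3 : 0 ≤ (N : ℝ) - (1 + β) * Λ := by linarith
  -- (N - Λ)^2 (1+β) - β^2 Λ N = with N = (1+β) Λ + t
  obtain ⟨t, ht⟩ : ∃ t : ℝ, t = (N : ℝ) - (1 + β) * Λ := ⟨_, rfl⟩
  have hN : (N : ℝ) = (1 + β) * Λ + t := by rw [ht]; ring
  have ht0 : 0 ≤ t := by rw [ht]; exact h3
  rw [hN]
  have e : ((1 + β) * Λ + t - Λ) ^ 2 * (1 + β) - β ^ 2 * Λ * ((1 + β) * Λ + t) =
      t * (β * Λ * (2 + β)) + t ^ 2 * (1 + β) := by ring
  have e1 : 0 ≤ t * (β * Λ * (2 + β)) + t ^ 2 * (1 + β) := by positivity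
  linarith

theorem cheb : CHEB := by
  intro Ω _ μ G N Λ K β c hG hN hfin hΛ hK hβ hc h1 h2
  have hb : 0 < 1 + β := by linarith
  set A : ℝ := β ^ 2 * Λ / (1 + β) with hA
  have hA0 : 0 < A := by positivity
  have hNm : Measurable fun w => (N w : ℝ≥0∞) := measurable_from_top.comp hN
  have hset : MeasurableSet {w | c < N w} := hN (measurableSet_Ioi (a := c))
  have hind : Measurable fun w => ind (c < N w) := measurable_ind hset
  -- pointwise
  have hpt : ∀ w, ENNReal.ofReal A * ((N w : ℝ≥0∞) * ind (c < N w)) +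
      ENNReal.ofReal (2 * Λ) * (N w : ℝ≥0∞) ≤ (N w : ℝ≥0∞) ^ 2 + ENNReal.ofReal (Λ ^ 2) := by
    intro w
    have hNw : (N w : ℝ≥0∞) = ENNReal.ofReal (N w : ℝ) := (ENNReal.ofReal_natCast _).symm
    have hN0 : (0 : ℝ) ≤ N w := Nat.cast_nonneg _
    rw [hNw, ← ENNReal.ofReal_pow hN0, ← ENNReal.ofReal_add (by positivity) (by positivity),
      ← ENNReal.ofReal_mul (by positivity : (0 : ℝ) ≤ 2 * Λ)]
    by_cases h : c < N w
    · rw [ind_true h, mul_one, ← ENNReal.ofReal_mul hA0.le,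
        ← ENNReal.ofReal_add (by positivity) (by positivity)]
      apply ENNReal.ofReal_le_ofReal
      have := cheb_real hΛ hβ hc h
      rw [← hA] at this
      nlinarith
    · rw [ind_false h, mul_zero, mul_zero, zero_add]
      apply ENNReal.ofReal_le_ofReal
      nlinarith [sq_nonneg ((N w : ℝ) - Λ)]
  set g := ∫⁻ w, G w ∂μ with hg
  set I := ∫⁻ w, G w * ((N w : ℝ≥0∞) * ind (c < N w)) ∂μ with hI
  have hint : ENNReal.ofReal A * I + ENNReal.ofReal (2 * Λ) * (ENNReal.ofReal Λ * g) ≤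
      ENNReal.ofReal K * g + ENNReal.ofReal (Λ ^ 2) * g := by
    have m1 : Measurable fun w => G w * ((N w : ℝ≥0∞) * ind (c < N w)) :=
      hG.mul (hNm.mul hind)
    have m2 : Measurable fun w => G w * (N w : ℝ≥0∞) := hG.mul hNm
    have m3 : Measurable fun w => G w * (N w : ℝ≥0∞) ^ 2 := hG.mul (hNm.pow_const 2)
    calc ENNReal.ofReal A * I + ENNReal.ofReal (2 * Λ) * (ENNReal.ofReal Λ * g)
        = ∫⁻ w, (ENNReal.ofReal A * (G w * ((N w : ℝ≥0∞) * ind (c < N w))) +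
          ENNReal.ofReal (2 * Λ) * (G w * (N w : ℝ≥0∞))) ∂μ := by
          rw [lintegral_add_left (m1.const_mul _), lintegral_const_mul _ m1,
            lintegral_const_mul _ m2, h1]
      _ ≤ ∫⁻ w, (G w * (N w : ℝ≥0∞) ^ 2 + ENNReal.ofReal (Λ ^ 2) * G w) ∂μ := by
          apply lintegral_mono
          intro w
          have hw := hpt w
          calc ENNReal.ofReal A * (G w * ((N w : ℝ≥0∞) * ind (c < N w))) +
                ENNReal.ofReal (2 * Λ) * (G w * (N w : ℝ≥0∞))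
              = G w * (ENNReal.ofReal A * ((N w : ℝ≥0∞) * ind (c < N w)) +
                ENNReal.ofReal (2 * Λ) * (N w : ℝ≥0∞)) := by ring
            _ ≤ G w * ((N w : ℝ≥0∞) ^ 2 + ENNReal.ofReal (Λ ^ 2)) := by gcongr
            _ = _ := by ring
      _ = ∫⁻ w, G w * (N w : ℝ≥0∞) ^ 2 ∂μ + ENNReal.ofReal (Λ ^ 2) * g := by
          rw [lintegral_add_left m3, lintegral_const_mul _ hG]
      _ ≤ _ := by gcongr
  have hIfin : I ≠ ∞ := by
    have : I ≤ ENNReal.ofReal Λ * g := by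
      rw [← h1]
      apply lintegral_mono
      intro w
      have : (N w : ℝ≥0∞) * ind (c < N w) ≤ (N w : ℝ≥0∞) * 1 := by
        gcongr; exact ind_le_one _
      rw [mul_one] at this
      show G w * _ ≤ G w * _
      gcongr
    exact ne_top_of_le_ne_top (ENNReal.mul_ne_top ENNReal.ofReal_ne_top hfin) this
  have hreal : A * I.toReal + 2 * Λ * (Λ * g.toReal) ≤ K * g.toReal + Λ ^ 2 * g.toReal := by
    have hR : ENNReal.ofReal K * g + ENNReal.ofReal (Λ ^ 2) * g ≠ ∞ :=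
      ENNReal.add_ne_top.2 ⟨ENNReal.mul_ne_top ENNReal.ofReal_ne_top hfin,
        ENNReal.mul_ne_top ENNReal.ofReal_ne_top hfin⟩
    have := ENNReal.toReal_mono hR hint
    rw [ENNReal.toReal_add (ENNReal.mul_ne_top ENNReal.ofReal_ne_top hIfin)
        (ENNReal.mul_ne_top ENNReal.ofReal_ne_top
          (ENNReal.mul_ne_top ENNReal.ofReal_ne_top hfin)),
      ENNReal.toReal_add (ENNReal.mul_ne_top ENNReal.ofReal_ne_top hfin)
        (ENNReal.mul_ne_top ENNReal.ofReal_ne_top hfin)] at this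
    simp only [ENNReal.toReal_mul, ENNReal.toReal_ofReal hA0.le,
      ENNReal.toReal_ofReal (by positivity : (0 : ℝ) ≤ 2 * Λ), ENNReal.toReal_ofReal hΛ.le,
      ENNReal.toReal_ofReal hK, ENNReal.toReal_ofReal (by positivity : (0 : ℝ) ≤ Λ ^ 2)] at this
    exact this
  have hfinal : I.toReal ≤ (1 + β) / β ^ 2 * ((K - Λ ^ 2) / Λ) * g.toReal := by
    have h3 : A * I.toReal ≤ (K - Λ ^ 2) * g.toReal := by nlinarith
    have h4 : I.toReal ≤ (K - Λ ^ 2) * g.toReal / A := by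
      rw [le_div_iff₀ hA0]; linarith
    refine h4.trans (le_of_eq ?_)
    rw [hA]
    field_simp
  calc I = ENNReal.ofReal I.toReal := (ENNReal.ofReal_toReal hIfin).symm
    _ ≤ ENNReal.ofReal ((1 + β) / β ^ 2 * ((K - Λ ^ 2) / Λ) * g.toReal) :=
        ENNReal.ofReal_le_ofReal hfinal
    _ = _ := by
        rw [ENNReal.ofReal_mul' ENNReal.toReal_nonneg, ENNReal.ofReal_toReal hfin]

end Pool.Agent.Helper18.OE
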