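import Pool.Agent.Helper79.OE.GoalsD

/-!
Project OE (MP_fc0446_an), packet OE-LIMB.
-/

open MeasureTheory Pool.Agent.Helper73.OE Pool.Agent.Helper78.OE
open scoped ENNReal

namespace Pool.Agent.Helper18.OE

open Pool.Agent.Helper79.OE

variable {H S L : Type} [Group H] (X : Sys H S L)

theorem measurableSet_Cl (ε : ℝ) (v : H) (s : S) : MeasurableSet {η : Env H S | X.Cl ε η v s} := by
  have h : ∀ e : H × S, MeasurableSet {η : Env H S | ((η e).1 : ℝ) ^ 2 ≤ ε} := by
    intro e
    have m : Measurable fun η : Env H S => ((η e).1 : ℝ) ^ 2 :=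
      (measurable_subtype_coe.comp (measurable_fst.comp (measurable_pi_apply e))).pow_const 2
    exact measurableSet_le m measurable_const
  exact (h (v, s)).inter (h (X.rev (v, s)))

theorem measurableSet_MA [Countable H] [Countable S] (ε : ℝ) (A : Set H) (f : Cfg H S L) :
    MeasurableSet {η : Env H S | X.MA (X.Op ε η) A f} := by
  have e : {η : Env H S | X.MA (X.Op ε η) A f} =
      ⋂ v, ⋂ s, {η : Env H S | v ∈ A → X.nb v s ∈ A → X.Op ε η v s → X.Mt f v s} := by
    ext η
    simp only [Set.mem_iInter]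
    exact Iff.rfl
  rw [e]
  refine MeasurableSet.iInter fun v => MeasurableSet.iInter fun s => ?_
  by_cases h : v ∈ A ∧ X.nb v s ∈ A ∧ ¬ X.Mt f v s
  · have : {η : Env H S | v ∈ A → X.nb v s ∈ A → X.Op ε η v s → X.Mt f v s} =
        {η : Env H S | X.Cl ε η v s} := by
      ext η
      constructor
      · intro hη
        by_contra hc
        exact h.2.2 (hη h.1 h.2.1 hc)
      · intro hη _ _ ho
        exact absurd hη ho
    rw [this]
    exact measurableSet_Cl X ε v s
  · have : {η : Env H S | v ∈ A → X.nb v s ∈ A → X.Op ε η v s → X.Mt f v s} = Set.univ := by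
      ext η
      refine ⟨fun _ => trivial, fun _ h1 h2 _ => ?_⟩
      by_contra hc
      exact h ⟨h1, h2, hc⟩
    rw [this]
    exact MeasurableSet.univ

theorem measurable_starSum [Countable H] [Fintype S] [Fintype L] (ε : ℝ) (Λ : Finset H)
    (F : Cfg H S L × Env H S → ℝ≥0∞) (hF : Measurable F) :
    Measurable fun η : Env H S => X.starSum Λ (X.Op ε η) (fun q => F (q, η)) := by
  unfold Sys.starSum
  refine Finset.measurable_sum _ fun f _ => ?_
  refine Measurable.ite (measurableSet_MA X ε _ _) ?_ measurable_const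
  exact hF.comp (measurable_const.prodMk measurable_id)

theorem measurable_starAvg [Countable H] [Fintype S] [Fintype L] (ε : ℝ) (Λ : Finset H)
    (F : Cfg H S L × Env H S → ℝ≥0∞) (hF : Measurable F) :
    Measurable fun η : Env H S => X.starAvg Λ (X.Op ε η) (fun q => F (q, η)) := by
  unfold Sys.starAvg
  exact (measurable_starSum X ε Λ F hF).div
    (measurable_starSum X ε Λ (fun _ => 1) measurable_const)

theorem min_iSup (a : ℝ≥0∞) : a = ⨆ k : ℕ, min a (k : ℝ≥0∞) := by
  have := inf_iSup_eq a (fun k : ℕ => (k : ℝ≥0∞))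
  rw [ENNReal.iSup_natCast, inf_top_eq] at this
  exact this

theorem starAvg_iSup [Fintype S] [Fintype L] (Λ : Finset H) (O : Edges H S)
    (F : Cfg H S L → ℝ≥0∞) :
    X.starAvg Λ O F = ⨆ k : ℕ, X.starAvg Λ O (fun q => min (F q) (k : ℝ≥0∞)) := by
  have h : X.starSum Λ O F = ⨆ k : ℕ, X.starSum Λ O (fun q => min (F q) (k : ℝ≥0∞)) := by
    unfold Sys.starSum
    rw [← ENNReal.finsetSum_iSup_of_monotone]
    · refine Finset.sum_congr rfl fun f _ => ?_
      split_ifs with hm
      · exact min_iSup _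
      · simp
    · intro f k l hkl
      dsimp only
      split_ifs with hm
      · exact min_le_min le_rfl (by exact_mod_cast hkl)
      · exact le_rfl
  unfold Sys.starAvg
  rw [h, ENNReal.iSup_div]

theorem limb : D_LIMB := by
  intro H S L _ _ _ _ X ε' ν h o Λ hPC F hF hloc
  have hmono : Monotone fun (k : ℕ) (w : Cfg H S L × Env H S) => min (F w) (k : ℝ≥0∞) := by
    intro k l hkl w
    exact min_le_min le_rfl (by exact_mod_cast hkl)
  have hmeas : ∀ k : ℕ, Measurable fun w : Cfg H S L × Env H S => min (F w) (k : ℝ≥0∞) :=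
    fun k => hF.min measurable_const
  have h1 : ∫⁻ w, F w ∂ν = ⨆ k : ℕ, ∫⁻ w, min (F w) (k : ℝ≥0∞) ∂ν := by
    rw [← lintegral_iSup hmeas hmono]
    exact lintegral_congr fun w => min_iSup _
  have h2 : ∀ k : ℕ, ∫⁻ w, min (F w) (k : ℝ≥0∞) ∂ν =
      ∫⁻ η, X.starAvg Λ (X.Op ε' η) (fun q => min (F (q, η)) (k : ℝ≥0∞)) ∂(Sys.lamE H S) := by
    intro k
    refine h o Λ hPC (fun w => min (F w) (k : ℝ≥0∞)) (hmeas k) ?_ k (ENNReal.natCast_ne_top k)
      (fun w => min_le_right _ _)
    intro q q' η hq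
    show min (F (q, η)) _ = min (F (q', η)) _
    rw [hloc q q' η hq]
  rw [h1]
  simp only [h2]
  rw [← lintegral_iSup]
  · refine lintegral_congr fun η => ?_
    exact (starAvg_iSup X Λ (X.Op ε' η) (fun q => F (q, η))).symm
  · intro k
    exact measurable_starAvg X ε' Λ (fun w => min (F w) (k : ℝ≥0∞)) (hmeas k)
  · intro k l hkl η
    show X.starAvg Λ (X.Op ε' η) _ ≤ X.starAvg Λ (X.Op ε' η) _
    unfold Sys.starAvg
    refine ENNReal.div_le_div_right ?_ _
    unfold Sys.starSum
    refine Finset.sum_le_sum fun f _ => ?_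
    split_ifs
    · exact min_le_min le_rfl (by exact_mod_cast hkl)
    · exact le_rfl

end Pool.Agent.Helper18.OE
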