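import Pool.Agent.Helper78.OE.GoalsC3

/-!
Project OE (MP_fc0446_an), packet OE-SEED.
-/

open MeasureTheory Pool.Agent.Helper73.OE
open scoped ENNReal unitInterval

namespace Pool.Agent.Helper18.OE

open Pool.Agent.Helper78.OE

theorem floor_eq_set (c k : ℕ) (hc : 1 ≤ c) (hk : k < c) :
    (volume : Measure unitInterval) {x : unitInterval | ⌊(c : ℝ) * (x : ℝ)⌋₊ = k} = (c : ℝ≥0∞)⁻¹ := by
  have hc0 : (0 : ℝ) < c := by exact_mod_cast hc
  have h1 : (k : ℝ) / c ∈ Set.Icc (0 : ℝ) 1 := by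
    refine ⟨by positivity, ?_⟩
    rw [div_le_one hc0]; exact_mod_cast hk.le
  have h2 : ((k : ℝ) + 1) / c ∈ Set.Icc (0 : ℝ) 1 := by
    refine ⟨by positivity, ?_⟩
    rw [div_le_one hc0]; exact_mod_cast hk
  have hset : {x : unitInterval | ⌊(c : ℝ) * (x : ℝ)⌋₊ = k} =
      Set.Ico (⟨(k : ℝ) / c, h1⟩ : unitInterval) ⟨((k : ℝ) + 1) / c, h2⟩ := by
    ext x
    have hx : 0 ≤ (c : ℝ) * (x : ℝ) := mul_nonneg hc0.le x.2.1
    rw [Set.mem_setOf_eq, Nat.floor_eq_iff hx, Set.mem_Ico, ← Subtype.coe_le_coe,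
      ← Subtype.coe_lt_coe]
    show _ ↔ (k : ℝ) / c ≤ x ∧ (x : ℝ) < ((k : ℝ) + 1) / c
    rw [div_le_iff₀ hc0, lt_div_iff₀ hc0, mul_comm (x : ℝ) c]
  rw [hset, unitInterval.volume_Ico]
  show ENNReal.ofReal (((k : ℝ) + 1) / c - (k : ℝ) / c) = _
  rw [← sub_div, add_sub_cancel_left, one_div, ENNReal.ofReal_inv_of_pos hc0,
    ENNReal.ofReal_natCast]

theorem floor_ge_set (c k : ℕ) (hc : 1 ≤ c) (hk : c ≤ k) :
    (volume : Measure unitInterval) {x : unitInterval | ⌊(c : ℝ) * (x : ℝ)⌋₊ = k} = 0 := by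
  have hc0 : (0 : ℝ) < c := by exact_mod_cast hc
  refine measure_mono_null (t := {(1 : unitInterval)}) ?_ (measure_singleton _)
  intro x hx
  have hx0 : 0 ≤ (c : ℝ) * (x : ℝ) := mul_nonneg hc0.le x.2.1
  rw [Set.mem_setOf_eq, Nat.floor_eq_iff hx0] at hx
  have h1 : (c : ℝ) ≤ k := by exact_mod_cast hk
  have h2 : (c : ℝ) * 1 ≤ c * x := by rw [mul_one]; exact h1.trans hx.1
  have h3 : (1 : ℝ) ≤ x := le_of_mul_le_mul_left h2 hc0
  rw [Set.mem_singleton_iff]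
  exact Subtype.ext (le_antisymm x.2.2 h3)

theorem seed (H S : Type) : SEED H S := by
  intro P hP e φ
  have hφ : Measurable φ := measurable_from_top
  have hfl : Measurable fun x : unitInterval => ⌊(P.cap : ℝ) * (x : ℝ)⌋₊ :=
    Nat.measurable_floor.comp (measurable_const.mul measurable_subtype_coe)
  have h0 : ∫⁻ u, φ (Sys.sd P u e) ∂(Sys.lamS H S) =
      ∫⁻ x : unitInterval, φ ⌊(P.cap : ℝ) * (x : ℝ)⌋₊ := by
    have hmp := measurePreserving_eval_infinitePi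
      (fun _ : H × S => (volume : Measure unitInterval)) e
    exact hmp.lintegral_comp (f := fun x : unitInterval => φ ⌊(P.cap : ℝ) * (x : ℝ)⌋₊)
      (hφ.comp hfl)
  rw [h0]
  have h1 : ∫⁻ x : unitInterval, φ ⌊(P.cap : ℝ) * (x : ℝ)⌋₊ =
      ∫⁻ n, φ n ∂((volume : Measure unitInterval).map fun x : unitInterval => ⌊(P.cap : ℝ) * (x : ℝ)⌋₊) :=
    (lintegral_map hφ hfl).symm
  rw [h1, lintegral_countable']
  have h2 : ∀ n : ℕ, ((volume : Measure unitInterval).map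
      fun x : unitInterval => ⌊(P.cap : ℝ) * (x : ℝ)⌋₊) {n} = if n < P.cap then (P.cap : ℝ≥0∞)⁻¹ else 0 := by
    intro n
    rw [Measure.map_apply hfl (MeasurableSet.singleton n)]
    have : (fun x : unitInterval => ⌊(P.cap : ℝ) * (x : ℝ)⌋₊) ⁻¹' {n} =
        {x : unitInterval | ⌊(P.cap : ℝ) * (x : ℝ)⌋₊ = n} := rfl
    rw [this]
    split_ifs with h
    · exact floor_eq_set _ _ hP h
    · exact floor_ge_set _ _ hP (not_lt.1 h)
  simp only [h2]
  rw [tsum_eq_sum (s := Finset.range P.cap), ENNReal.div_eq_inv_mul, Finset.mul_sum]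
  · refine Finset.sum_congr rfl fun k hk => ?_
    rw [if_pos (Finset.mem_range.1 hk), mul_comm]
  · intro n hn
    rw [if_neg (fun h => hn (Finset.mem_range.2 h)), mul_zero]

end Pool.Agent.Helper18.OE
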